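import Pool.Agent.H36.Rect.Data

/-!
# The chain of lattice lemmas (seat helper36, problem MP_f86233_co)
-/

set_option autoImplicit false
set_option maxRecDepth 100000

namespace Pool.Agent.H36.Rect

theorem okl3 : certl3.check base shapel3 = true := by decide +kernel

theorem okD1 : certD1.check (base ++ [shapel3]) shapeD1 = true := by decide +kernel

theorem okD2 : certD2.check (base ++ [shapel3, shapeD1]) shapeD2 = true := by decide +kernel

theorem okA : certA.check (base ++ [shapel3, shapeD1, shapeD2]) shapeA = true := by
  decide +kernel

theorem okB : certB.check (base ++ [shapel3, shapeD1, shapeD2, shapeA]) shapeB = true := by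
  decide +kernel

theorem okC : certC.check (base ++ [shapel3, shapeD1, shapeD2, shapeA, shapeB]) shapeC = true := by
  decide +kernel

theorem okD : certD.check (base ++ [shapel3, shapeD1, shapeD2, shapeA, shapeB, shapeC])
    shapeD = true := by
  decide +kernel

theorem okE : certE.check (base ++ [shapel3, shapeD1, shapeD2, shapeA, shapeB, shapeC, shapeD])
    shapeE = true := by
  decide +kernel

theorem okF : certF.check (base ++ [shapel3, shapeD1, shapeD2, shapeA, shapeB, shapeC, shapeD,
    shapeE]) shapeF = true := by
  decide +kernel

theorem okT : certT.check (base ++ [shapel3, shapeD1, shapeD2, shapeA, shapeB, shapeC, shapeD,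
    shapeE, shapeF]) shapeT = true := by
  decide +kernel

theorem okZ : certZ.check (base ++ [shapel3, shapeD1, shapeD2, shapeA, shapeB, shapeC, shapeD,
    shapeE, shapeF, shapeT]) shapeZ = true := by
  decide +kernel

theorem step {C : (Pt → Bool) → Prop} (hC : Closed C) {L : List (List Pt)}
    (hL : ∀ S ∈ base ++ L, NoMono C S) {t : List Pt} {c : Cert}
    (h : c.check (base ++ L) t = true) : ∀ S ∈ base ++ (L ++ [t]), NoMono C S := by
  intro S hS
  rw [← List.append_assoc, List.mem_append, List.mem_singleton] at hS
  rcases hS with hS | rfl
  · exact hL S hS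
  · exact Cert.sound C hC _ hL _ c h

/-- a closed family of colourings in which no rectangle of one of the seven shapes is
monochromatic is empty -/
theorem no_closed {C : (Pt → Bool) → Prop} (hC : Closed C) (hb : ∀ S ∈ base, NoMono C S)
    (f : Pt → Bool) (hf : C f) : False := by
  have h0 : ∀ S ∈ base ++ [], NoMono C S := by simpa using hb
  have h1 := step hC h0 (t := shapel3) (c := certl3) (by simpa using okl3)
  have h2 := step hC h1 okD1
  have h3 := step hC h2 okD2
  have h4 := step hC h3 okA
  have h5 := step hC h4 okB
  have h6 := step hC h5 okC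
  have h7 := step hC h6 okD
  have h8 := step hC h7 okE
  have h9 := step hC h8 okF
  have h10 := step hC h9 okT
  have h11 := step hC h10 okZ
  have hZ : NoMono C shapeZ := h11 shapeZ (by simp)
  have a1 : f (0, 0, 0, 0) ≠ true := fun h => hZ f hf (by
    intro s hs
    simp only [shapeZ, List.mem_singleton] at hs
    rw [hs]; exact h)
  have a2 : (!(f (0, 0, 0, 0))) ≠ true := fun h => hZ _ (hC.neg f hf) (by
    intro s hs
    simp only [shapeZ, List.mem_singleton] at hs
    rw [hs]; exact h)
  cases hh : f (0, 0, 0, 0) with
  | true => exact a1 hh
  | false => exact a2 (by rw [hh]; rfl)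

end Pool.Agent.H36.Rect
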