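import Mathlib

/-!
# A small checker for clausal certificates about colourings of the lattice `ℤ[ζ₁₂]`
(seat helper36, problem MP_f86233_co)
-/

set_option autoImplicit false

namespace Pool.Agent.H36.Rect

/-- Points of the lattice `ℤ[ζ]`, `ζ = exp (π i / 6)`, in coordinates `1, ζ, ζ², ζ³`. -/
abbrev Pt : Type := ℤ × ℤ × ℤ × ℤ

/-- multiplication by `ζ` (rotation by 30 degrees) -/
def rot (p : Pt) : Pt := (-p.2.2.2, p.1, p.2.1 + p.2.2.2, p.2.2.1)

/-- complex conjugation -/
def cnj (p : Pt) : Pt := (p.1 + p.2.2.1, p.2.1, -p.2.2.1, -p.2.1 - p.2.2.2)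

/-- iterate of `rot` -/
def rotn : ℕ → Pt → Pt
  | 0, p => p
  | n + 1, p => rotn n (rot p)

/-- the `k`-th of the 24 linear symmetries -/
def gact (k : ℕ) (p : Pt) : Pt := if k < 12 then rotn k p else rotn (k - 12) (cnj p)

/-- A family of colourings of the lattice closed under the lattice symmetries and colour swap. -/
structure Closed (C : (Pt → Bool) → Prop) : Prop where
  rot : ∀ f, C f → C (fun p => f (rot p))
  cnj : ∀ f, C f → C (fun p => f (cnj p))
  trans : ∀ f v, C f → C (fun p => f (v + p))
  neg : ∀ f, C f → C (fun p => !(f p))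

/-- no member of the family is constantly `true` on `S` -/
def NoMono (C : (Pt → Bool) → Prop) (S : List Pt) : Prop :=
  ∀ f, C f → ¬ ∀ s ∈ S, f s = true

theorem Closed.rotn {C : (Pt → Bool) → Prop} (h : Closed C) (n : ℕ) :
    ∀ f, C f → C (fun p => f (rotn n p)) := by
  induction n with
  | zero => intro f hf; exact hf
  | succ n ih => intro f hf; exact h.rot _ (ih f hf)

theorem Closed.gact {C : (Pt → Bool) → Prop} (h : Closed C) (k : ℕ) (f : Pt → Bool) (hf : C f) :
    C (fun p => f (gact k p)) := by
  unfold Rect.gact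
  by_cases hk : k < 12
  · simpa [hk] using h.rotn k f hf
  · simpa [hk] using h.cnj _ (h.rotn (k - 12) f hf)

theorem NoMono.true_inst {C : (Pt → Bool) → Prop} (h : Closed C) {S : List Pt} (hS : NoMono C S)
    (k : ℕ) (v : Pt) (f : Pt → Bool) (hf : C f) :
    ∃ s ∈ S.map (gact k), f (v + s) = false := by
  by_contra hcon
  push Not at hcon
  refine hS _ (h.gact k _ (h.trans f v hf)) fun s hs => ?_
  have := hcon _ (List.mem_map_of_mem hs)
  simpa using this

theorem NoMono.false_inst {C : (Pt → Bool) → Prop} (h : Closed C) {S : List Pt} (hS : NoMono C S)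
    (k : ℕ) (v : Pt) (f : Pt → Bool) (hf : C f) :
    ∃ s ∈ S.map (gact k), f (v + s) = true := by
  obtain ⟨s, hs, h1⟩ := hS.true_inst h k v _ (h.neg f hf)
  exact ⟨s, hs, by simpa using h1⟩

/-- binary trees used as a clause data base -/
inductive Tr : Type
  | nil : Tr
  | nd : Option (ℕ × ℕ) → Tr → Tr → Tr

/-- look up -/
def Tr.get : ℕ → ℕ → Tr → Option (ℕ × ℕ)
  | _, _, Tr.nil => none
  | 0, _, Tr.nd v _ _ => v
  | n + 1, k, Tr.nd _ l r => if k % 2 = 0 then Tr.get n (k / 2) l else Tr.get n (k / 2) r

/-- insertion -/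
def Tr.ins : ℕ → ℕ → ℕ × ℕ → Tr → Tr
  | 0, _, c, _ => Tr.nd (some c) Tr.nil Tr.nil
  | n + 1, k, c, Tr.nil =>
      if k % 2 = 0 then Tr.nd none (Tr.ins n (k / 2) c Tr.nil) Tr.nil
      else Tr.nd none Tr.nil (Tr.ins n (k / 2) c Tr.nil)
  | n + 1, k, c, Tr.nd v l r =>
      if k % 2 = 0 then Tr.nd v (Tr.ins n (k / 2) c l) r
      else Tr.nd v l (Tr.ins n (k / 2) c r)

/-- every stored clause satisfies `Q` -/
def Tr.All (Q : ℕ × ℕ → Prop) : Tr → Prop
  | Tr.nil => True
  | Tr.nd v l r => (∀ c, v = some c → Q c) ∧ Tr.All Q l ∧ Tr.All Q r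

theorem Tr.All.get {Q : ℕ × ℕ → Prop} (n : ℕ) : ∀ (k : ℕ) (t : Tr), t.All Q → ∀ c,
    Tr.get n k t = some c → Q c := by
  induction n with
  | zero =>
    intro k t ht c hc
    cases t with
    | nil => simp [Tr.get] at hc
    | nd v l r => exact ht.1 c (by simpa [Tr.get] using hc)
  | succ n ih =>
    intro k t ht c hc
    cases t with
    | nil => simp [Tr.get] at hc
    | nd v l r =>
      simp only [Tr.get] at hc
      split_ifs at hc
      · exact ih _ _ ht.2.1 _ hc
      · exact ih _ _ ht.2.2 _ hc

theorem Tr.All.ins {Q : ℕ × ℕ → Prop} (n : ℕ) : ∀ (k : ℕ) (c : ℕ × ℕ) (t : Tr), t.All Q → Q c →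
    (Tr.ins n k c t).All Q := by
  induction n with
  | zero =>
    intro k c t _ hc
    refine ⟨fun c' hc' => ?_, trivial, trivial⟩
    cases hc'; exact hc
  | succ n ih =>
    intro k c t ht hc
    cases t with
    | nil =>
      simp only [Tr.ins]
      split_ifs
      · exact ⟨fun _ h => by simp at h, ih _ _ _ trivial hc, trivial⟩
      · exact ⟨fun _ h => by simp at h, trivial, ih _ _ _ trivial hc⟩
    | nd v l r =>
      simp only [Tr.ins]
      split_ifs
      · exact ⟨ht.1, ih _ _ _ ht.2.1 hc, ht.2.2⟩
      · exact ⟨ht.1, ht.2.1, ih _ _ _ ht.2.2 hc⟩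

/-- a clause `(P, N)` (bit masks of positive and of negative literals) holds for `a` -/
def Sat (a : ℕ → Bool) (c : ℕ × ℕ) : Prop :=
  (∃ v, c.1.testBit v = true ∧ a v = true) ∨ (∃ v, c.2.testBit v = true ∧ a v = false)

/-- unit propagation along the hints `x` (base `2 ^ 22` digits `512 * id + var`) -/
def rup (db : Tr) : ℕ → ℕ → ℕ → ℕ → Bool
  | 0, _, _, _ => false
  | fuel + 1, x, T, F =>
    match Tr.get 13 (x % 4194304 / 512) db with
    | none => false
    | some c =>
      if (c.1 ^^^ (c.1 &&& F)) == 0 then
        if (c.2 ^^^ (c.2 &&& T)) == 0 then true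
        else if (c.2 ^^^ (c.2 &&& T)) == 1 <<< (x % 512) then
          rup db fuel (x / 4194304) T (F ||| (1 <<< (x % 512)))
        else false
      else if (c.2 ^^^ (c.2 &&& T)) == 0 then
        if (c.1 ^^^ (c.1 &&& F)) == 1 <<< (x % 512) then
          rup db fuel (x / 4194304) (T ||| (1 <<< (x % 512))) F
        else false
      else false

theorem testBit_sdiff (m n i : ℕ) :
    (m ^^^ (m &&& n)).testBit i = (m.testBit i && !n.testBit i) := by
  rw [Nat.testBit_xor, Nat.testBit_and]
  cases m.testBit i <;> cases n.testBit i <;> rfl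

theorem testBit_one_shl (v i : ℕ) : (1 <<< v : ℕ).testBit i = decide (i = v) := by
  rw [Nat.one_shiftLeft, Nat.testBit_two_pow]
  by_cases h : v = i <;> simp [h, eq_comm]

theorem rup_sound (a : ℕ → Bool) (db : Tr) (hdb : db.All (Sat a)) (fuel : ℕ) :
    ∀ x T F : ℕ, (∀ v, T.testBit v = true → a v = true) →
      (∀ v, F.testBit v = true → a v = false) → rup db fuel x T F = true → False := by
  induction fuel with
  | zero => intro x T F _ _ h; simp [rup] at h
  | succ fuel ih =>
    intro x T F hT hF h
    simp only [rup] at h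
    split at h
    · simp at h
    · rename_i c hc
      have hs := hdb.get 13 _ _ c hc
      have key1 : ∀ v, c.1.testBit v = true → a v = true →
          (c.1 ^^^ (c.1 &&& F)).testBit v = true := by
        intro v h1 h2
        rw [testBit_sdiff, h1]
        by_cases h3 : F.testBit v = true
        · have := hF v h3; rw [this] at h2; simp at h2
        · simp at h3; simp [h3]
      have key2 : ∀ v, c.2.testBit v = true → a v = false →
          (c.2 ^^^ (c.2 &&& T)).testBit v = true := by
        intro v h1 h2
        rw [testBit_sdiff, h1]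
        by_cases h3 : T.testBit v = true
        · have := hT v h3; rw [this] at h2; simp at h2
        · simp at h3; simp [h3]
      split_ifs at h with h1 h2 h3 h4 h5
      · have e1 : c.1 ^^^ (c.1 &&& F) = 0 := by simpa using h1
        have e2 : c.2 ^^^ (c.2 &&& T) = 0 := by simpa using h2
        rcases hs with ⟨v, hv1, hv2⟩ | ⟨v, hv1, hv2⟩
        · have := key1 v hv1 hv2; rw [e1] at this; simp at this
        · have := key2 v hv1 hv2; rw [e2] at this; simp at this
      · have e1 : c.1 ^^^ (c.1 &&& F) = 0 := by simpa using h1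
        have e2 : c.2 ^^^ (c.2 &&& T) = 1 <<< (x % 512) := by simpa using h3
        refine ih _ _ _ hT (fun v hv => ?_) h
        rw [Nat.testBit_or, Bool.or_eq_true] at hv
        rcases hv with hv | hv
        · exact hF v hv
        · rw [testBit_one_shl] at hv
          have hv' : v = x % 512 := by simpa using hv
          rcases hs with ⟨w, hw1, hw2⟩ | ⟨w, hw1, hw2⟩
          · have := key1 w hw1 hw2; rw [e1] at this; simp at this
          · have := key2 w hw1 hw2
            rw [e2, testBit_one_shl] at this
            have hw : w = x % 512 := by simpa using this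
            rw [hv', ← hw]; exact hw2
      · have e1 : c.2 ^^^ (c.2 &&& T) = 0 := by simpa using h4
        have e2 : c.1 ^^^ (c.1 &&& F) = 1 <<< (x % 512) := by simpa using h5
        refine ih _ _ _ (fun v hv => ?_) hF h
        rw [Nat.testBit_or, Bool.or_eq_true] at hv
        rcases hv with hv | hv
        · exact hT v hv
        · rw [testBit_one_shl] at hv
          have hv' : v = x % 512 := by simpa using hv
          rcases hs with ⟨w, hw1, hw2⟩ | ⟨w, hw1, hw2⟩
          · have := key1 w hw1 hw2
            rw [e2, testBit_one_shl] at this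
            have hw : w = x % 512 := by simpa using this
            rw [hv', ← hw]; exact hw2
          · have := key2 w hw1 hw2; rw [e1] at this; simp at this

/-- proof steps `(P, N, hints)`; the last one must be the empty clause -/
def steps : List (ℕ × ℕ × ℕ) → ℕ → Tr → Bool
  | [], _, _ => false
  | s :: l, k, db => rup db 4096 s.2.2 s.2.1 s.1 &&
      ((s.1 == 0 && s.2.1 == 0) || steps l (k + 1) (db.ins 13 k (s.1, s.2.1)))

theorem steps_sound (a : ℕ → Bool) (l : List (ℕ × ℕ × ℕ)) : ∀ (k : ℕ) (db : Tr),
    db.All (Sat a) → steps l k db = true → False := by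
  induction l with
  | nil => intro k db _ h; simp [steps] at h
  | cons s l ih =>
    intro k db hdb h
    simp only [steps, Bool.and_eq_true, Bool.or_eq_true] at h
    obtain ⟨h1, h2⟩ := h
    have hsat : Sat a (s.1, s.2.1) := by
      by_contra hcon
      refine rup_sound a db hdb _ _ _ _ (fun v hv => ?_) (fun v hv => ?_) h1
      · by_contra hc
        exact hcon (Or.inr ⟨v, hv, by simpa using hc⟩)
      · by_contra hc
        exact hcon (Or.inl ⟨v, hv, by simpa using hc⟩)
    rcases h2 with h2 | h2
    · have e1 : s.1 = 0 := by simpa using h2.1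
      have e2 : s.2.1 = 0 := by simpa using h2.2
      rcases hsat with ⟨v, hv, _⟩ | ⟨v, hv, _⟩
      · simp [e1] at hv
      · simp [e2] at hv
    · exact ih _ _ (hdb.ins 13 _ _ _ hsat) h2

/-- the point with index `i` in the packed table -/
def pt (tab i : ℕ) : Pt :=
  (((tab >>> (24 * i)) % 64 : ℕ) - 16, ((tab >>> (24 * i + 6)) % 64 : ℕ) - 16,
    ((tab >>> (24 * i + 12)) % 64 : ℕ) - 16, ((tab >>> (24 * i + 18)) % 64 : ℕ) - 16)

/-- compare the points of the packed index list `x` with `v + S`; returns mask and rest -/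
def inst (tab : ℕ) (v : Pt) : List Pt → ℕ → ℕ → Option (ℕ × ℕ)
  | [], x, m => some (m, x)
  | s :: S, x, m => if pt tab (x % 512) = v + s then
      inst tab v S (x / 512) (m ||| (1 <<< (x % 512))) else none

theorem inst_sound (tab : ℕ) (v : Pt) (S : List Pt) : ∀ (x m : ℕ) (r : ℕ × ℕ),
    inst tab v S x m = some r → (∀ i, m.testBit i = true → r.1.testBit i = true) ∧
      ∀ s ∈ S, ∃ i, r.1.testBit i = true ∧ pt tab i = v + s := by
  induction S with
  | nil =>
    intro x m r h
    simp only [inst, Option.some.injEq] at h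
    subst h
    exact ⟨fun _ h => h, fun s hs => by simp at hs⟩
  | cons s S ih =>
    intro x m r h
    simp only [inst] at h
    split_ifs at h with h1
    obtain ⟨h2, h3⟩ := ih _ _ _ h
    refine ⟨fun i hi => h2 i (by rw [Nat.testBit_or, hi]; rfl), fun t ht => ?_⟩
    rcases List.mem_cons.1 ht with rfl | ht
    · exact ⟨x % 512, h2 _ (by rw [Nat.testBit_or, testBit_one_shl]; simp), h1⟩
    · exact h3 t ht

/-- add all the instances packed in `x` of the shape `S`, with polarity `pol` -/
def addAll (tab : ℕ) (S : List Pt) (pol : Bool) : ℕ → ℕ → ℕ → Tr → Option (ℕ × Tr)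
  | 0, _, k, db => some (k, db)
  | n + 1, x, k, db =>
    match S with
    | [] => none
    | s :: S' =>
      match inst tab (pt tab (x % 512) - s) (s :: S') x 0 with
      | none => none
      | some r => addAll tab S pol n r.2 (k + 1)
          (db.ins 13 k (if pol then (r.1, 0) else (0, r.1)))

/-- all the groups of instances `(shape, symmetry, polarity, number, packed indices)` -/
def addGroups (tab : ℕ) (Sh : List (List Pt)) : List (ℕ × ℕ × Bool × ℕ × ℕ) → ℕ → Tr →
    Option (ℕ × Tr)
  | [], k, db => some (k, db)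
  | g :: l, k, db =>
    match Sh[g.1]? with
    | none => none
    | some S =>
      match addAll tab (S.map (gact g.2.1)) g.2.2.1 g.2.2.2.1 g.2.2.2.2 k db with
      | none => none
      | some r => addGroups tab Sh l r.1 r.2

/-- unit clauses for the target -/
def addUnits (tab : ℕ) : List Pt → ℕ → ℕ → Tr → Option (ℕ × Tr)
  | [], _, k, db => some (k, db)
  | t :: l, x, k, db => if pt tab (x % 512) = t then
      addUnits tab l (x / 512) (k + 1) (db.ins 13 k (1 <<< (x % 512), 0)) else none

/-- a certificate -/
structure Cert : Type where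
  /-- packed table of points -/
  tab : ℕ
  /-- instances used -/
  groups : List (ℕ × ℕ × Bool × ℕ × ℕ)
  /-- packed indices of the target points -/
  units : ℕ
  /-- proof steps -/
  prf : List (ℕ × ℕ × ℕ)

/-- the checker -/
def Cert.check (c : Cert) (Sh : List (List Pt)) (tgt : List Pt) : Bool :=
  match addGroups c.tab Sh c.groups 0 Tr.nil with
  | none => false
  | some r =>
    match addUnits c.tab tgt c.units r.1 r.2 with
    | none => false
    | some r' => steps c.prf r'.1 r'.2

theorem addAll_sound (C : (Pt → Bool) → Prop) (hC : Closed C) (tab : ℕ) (S0 : List Pt) (g : ℕ)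
    (hS : NoMono C S0) (f : Pt → Bool) (hf : C f) (pol : Bool) (n : ℕ) :
    ∀ (x k : ℕ) (db : Tr) (r : ℕ × Tr), db.All (Sat fun i => f (pt tab i)) →
      addAll tab (S0.map (gact g)) pol n x k db = some r →
      r.2.All (Sat fun i => f (pt tab i)) := by
  induction n with
  | zero =>
    intro x k db r hdb h
    simp only [addAll, Option.some.injEq] at h
    subst h; exact hdb
  | succ n ih =>
    intro x k db r hdb h
    simp only [addAll] at h
    split at h
    · simp at h
    · rename_i s S' hSS
      split at h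
      · simp at h
      · rename_i q hq
        refine ih _ _ _ _ ?_ h
        refine hdb.ins 13 _ _ _ ?_
        obtain ⟨-, h2⟩ := inst_sound _ _ _ _ _ _ hq
        rw [← hSS] at h2
        cases pol with
        | true =>
          obtain ⟨t, ht, ht'⟩ := hS.false_inst hC g (pt tab (x % 512) - s) f hf
          obtain ⟨i, hi1, hi2⟩ := h2 t ht
          exact Or.inl ⟨i, hi1, by show f (pt tab i) = true; rw [hi2]; exact ht'⟩
        | false =>
          obtain ⟨t, ht, ht'⟩ := hS.true_inst hC g (pt tab (x % 512) - s) f hf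
          obtain ⟨i, hi1, hi2⟩ := h2 t ht
          exact Or.inr ⟨i, hi1, by show f (pt tab i) = false; rw [hi2]; exact ht'⟩

theorem addGroups_sound (C : (Pt → Bool) → Prop) (hC : Closed C) (tab : ℕ) (Sh : List (List Pt))
    (hS : ∀ S ∈ Sh, NoMono C S) (f : Pt → Bool) (hf : C f) (l : List (ℕ × ℕ × Bool × ℕ × ℕ)) :
    ∀ (k : ℕ) (db : Tr) (r : ℕ × Tr), db.All (Sat fun i => f (pt tab i)) →
      addGroups tab Sh l k db = some r → r.2.All (Sat fun i => f (pt tab i)) := by
  induction l with
  | nil =>
    intro k db r hdb h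
    simp only [addGroups, Option.some.injEq] at h
    subst h; exact hdb
  | cons g l ih =>
    intro k db r hdb h
    simp only [addGroups] at h
    split at h
    · simp at h
    · rename_i S hSS
      split at h
      · simp at h
      · rename_i q hq
        refine ih _ _ _ ?_ h
        exact addAll_sound C hC tab S g.2.1 (hS S (List.mem_of_getElem? hSS)) f hf _ _ _ _ _ _
          hdb hq

theorem addUnits_sound (tab : ℕ) (f : Pt → Bool) (l : List Pt) : ∀ (x k : ℕ) (db : Tr)
    (r : ℕ × Tr), (∀ t ∈ l, f t = true) → db.All (Sat fun i => f (pt tab i)) →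
      addUnits tab l x k db = some r → r.2.All (Sat fun i => f (pt tab i)) := by
  induction l with
  | nil =>
    intro x k db r _ hdb h
    simp only [addUnits, Option.some.injEq] at h
    subst h; exact hdb
  | cons t l ih =>
    intro x k db r hl hdb h
    simp only [addUnits] at h
    split_ifs at h with h1
    refine ih _ _ _ _ (fun s hs => hl s (List.mem_cons_of_mem _ hs)) ?_ h
    refine hdb.ins 13 _ _ _ (Or.inl ⟨x % 512, by rw [testBit_one_shl]; simp, ?_⟩)
    show f (pt tab (x % 512)) = true
    rw [h1]
    exact hl t List.mem_cons_self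

/-- soundness of the checker -/
theorem Cert.sound (C : (Pt → Bool) → Prop) (hC : Closed C) (Sh : List (List Pt))
    (hS : ∀ S ∈ Sh, NoMono C S) (tgt : List Pt) (c : Cert) (h : c.check Sh tgt = true) :
    NoMono C tgt := by
  intro f hf ht
  unfold Cert.check at h
  split at h
  · simp at h
  · rename_i r hr
    split at h
    · simp at h
    · rename_i r' hr'
      have h0 : Tr.nil.All (Sat fun i => f (pt c.tab i)) := trivial
      have h1 := addGroups_sound C hC c.tab Sh hS f hf _ _ _ _ h0 hr
      have h2 := addUnits_sound c.tab f tgt _ _ _ _ ht h1 hr'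
      exact steps_sound _ _ _ _ h2 h

end Pool.Agent.H36.Rect
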