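import Mathlib
import Pool.Agent.H36.Rect.Chain

/-!
# Every two-colouring of the plane contains a monochromatic `m × n` rectangle with `m ∈ {1, 2}` and
`n ∈ {1, 2, 3, 4}` (MP_f86233_co)
-/

set_option autoImplicit false

namespace Pool.Agent.H36.Rect.SFour

open Pool.Agent.H36.Rect

/-- The Euclidean plane. -/
abbrev Plane : Type := EuclideanSpace ℝ (Fin 2)

/-- `R` is a `d₁ × d₂` rectangle: a set of points congruent, by an isometry of the plane, to
`{(0, 0), (d₁, 0), (0, d₂), (d₁, d₂)}`. -/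
def IsRectangle (d₁ d₂ : ℝ) (R : Set Plane) : Prop :=
  ∃ φ : Plane ≃ᵢ Plane, R = φ '' {!₂[0, 0], !₂[d₁, 0], !₂[0, d₂], !₂[d₁, d₂]}

/-- All points of `R` have the same colour. -/
def Monochromatic (c : Plane → Bool) (R : Set Plane) : Prop :=
  ∀ p ∈ R, ∀ q ∈ R, c p = c q

/-- The statement `S(N)`: every two-colouring of the plane contains a monochromatic `m × n`
rectangle for some `m ∈ {1, 2}` and some integer `n` with `1 ≤ n ≤ N`. -/
def S (N : ℕ) : Prop :=
  ∀ c : Plane → Bool, ∃ m n : ℕ, (m = 1 ∨ m = 2) ∧ 1 ≤ n ∧ n ≤ N ∧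
    ∃ R : Set Plane, IsRectangle m n R ∧ Monochromatic c R

/-- first coordinate of a lattice point -/
noncomputable def ex (p : Pt) : ℝ := p.1 + p.2.1 * (√3 / 2) + p.2.2.1 * (1 / 2)

/-- second coordinate of a lattice point -/
noncomputable def ey (p : Pt) : ℝ := p.2.1 * (1 / 2) + p.2.2.1 * (√3 / 2) + p.2.2.2

/-- placement of the plane -/
noncomputable def mv (x0 y0 a b s x y : ℝ) : Plane := !₂[x0 + a * x - s * b * y, y0 + b * x + s * a * y]

theorem dist_mv {a b s : ℝ} (h : a ^ 2 + b ^ 2 = 1) (hs : s ^ 2 = 1) (x0 y0 x y x' y' : ℝ) :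
    dist (mv x0 y0 a b s x y) (mv x0 y0 a b s x' y') = dist (!₂[x, y] : Plane) !₂[x', y'] := by
  rw [EuclideanSpace.dist_eq, EuclideanSpace.dist_eq]
  congr 1
  simp only [mv, Fin.sum_univ_two, Real.dist_eq, sq_abs]
  simp
  have e1 : (x0 + a * x - s * b * y - (x0 + a * x' - s * b * y')) ^ 2 +
      (y0 + b * x + s * a * y - (y0 + b * x' + s * a * y')) ^ 2 =
      (a ^ 2 + b ^ 2) * ((x - x') ^ 2 + s ^ 2 * (y - y') ^ 2) := by ring
  rw [e1, h, hs]
  ring

/-- the placement as an isometry of the plane -/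
noncomputable def isom {a b s : ℝ} (h : a ^ 2 + b ^ 2 = 1) (hs : s ^ 2 = 1) (x0 y0 : ℝ) :
    Plane ≃ᵢ Plane :=
  IsometryEquiv.mk'
    (fun v => mv x0 y0 a b s (v 0) (v 1))
    (fun w => !₂[a * (w 0 - x0) + b * (w 1 - y0), s * (a * (w 1 - y0) - b * (w 0 - x0))])
    (by
      intro w
      ext i
      fin_cases i
      · simp [mv]
        linear_combination (w 0 - x0) * h - b * (a * (w 1 - y0) - b * (w 0 - x0)) * hs
      · simp [mv]
        linear_combination (w 1 - y0) * h + a * (a * (w 1 - y0) - b * (w 0 - x0)) * hs)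
    (by
      refine Isometry.of_dist_eq fun v w => ?_
      rw [dist_mv h hs]
      congr 1
      · ext i; fin_cases i <;> rfl
      · ext i; fin_cases i <;> rfl)

theorem isom_apply {a b s : ℝ} (h : a ^ 2 + b ^ 2 = 1) (hs : s ^ 2 = 1) (x0 y0 x y : ℝ) :
    isom h hs x0 y0 !₂[x, y] = mv x0 y0 a b s x y := rfl

/-- colourings of the lattice induced by the colouring `c` of the plane -/
def Ind (c : Plane → Bool) (f : Pt → Bool) : Prop :=
  ∃ (x0 y0 a b s : ℝ) (e : Bool), a ^ 2 + b ^ 2 = 1 ∧ s ^ 2 = 1 ∧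
    ∀ p, f p = xor e (c (mv x0 y0 a b s (ex p) (ey p)))

theorem sq3 : (√3 : ℝ) ^ 2 = 3 := Real.sq_sqrt (by norm_num)

theorem ex_rot (p : Pt) : ex (rot p) = √3 / 2 * ex p - 1 / 2 * ey p := by
  simp only [ex, ey, rot]
  push_cast
  linear_combination (-(p.2.1 : ℝ) / 4) * sq3

theorem ey_rot (p : Pt) : ey (rot p) = 1 / 2 * ex p + √3 / 2 * ey p := by
  simp only [ex, ey, rot]
  push_cast
  linear_combination (-(p.2.2.1 : ℝ) / 4) * sq3

theorem closed (c : Plane → Bool) : Closed (Ind c) where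
  rot := by
    rintro f ⟨x0, y0, a, b, s, e, h, hs, hf⟩
    refine ⟨x0, y0, √3 / 2 * a - s * b / 2, √3 / 2 * b + s * a / 2, s, e, ?_, hs, fun p => ?_⟩
    · linear_combination (1 / 4 * (a ^ 2 + b ^ 2)) * sq3 + ((a ^ 2 + b ^ 2) / 4) * hs + h
    · show f (rot p) = _
      rw [hf, ex_rot, ey_rot]
      congr 2
      ext i
      fin_cases i
      · simp [mv]
        linear_combination (a * ey p / 2) * hs
      · simp [mv]
        linear_combination (b * ey p / 2) * hs
  cnj := by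
    rintro f ⟨x0, y0, a, b, s, e, h, hs, hf⟩
    refine ⟨x0, y0, a, b, -s, e, h, by rw [neg_sq]; exact hs, fun p => ?_⟩
    show f (cnj p) = _
    rw [hf]
    congr 2
    ext i
    fin_cases i
    · simp [mv, ex, ey, cnj]
      ring
    · simp [mv, ex, ey, cnj]
      ring
  trans := by
    rintro f v ⟨x0, y0, a, b, s, e, h, hs, hf⟩
    refine ⟨x0 + a * ex v - s * b * ey v, y0 + b * ex v + s * a * ey v, a, b, s, e, h, hs,
      fun p => ?_⟩
    show f (v + p) = _
    rw [hf]
    congr 2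
    ext i
    fin_cases i
    · simp [mv, ex, ey]
      ring
    · simp [mv, ex, ey]
      ring
  neg := by
    rintro f ⟨x0, y0, a, b, s, e, h, hs, hf⟩
    refine ⟨x0, y0, a, b, s, !e, h, hs, fun p => ?_⟩
    show (!(f p)) = _
    rw [hf]
    cases e <;> simp

/-- if no rectangle of the given size is monochromatic, then no induced lattice colouring is
constant on the four lattice points `rect m n` -/
theorem noMono (c : Plane → Bool) (m n : ℕ)
    (hc : ¬ ∃ R : Set Plane, IsRectangle m n R ∧ Monochromatic c R) :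
    NoMono (Ind c) (rect m n) := by
  rintro f ⟨x0, y0, a, b, s, e, h, hs, hf⟩ hm
  refine hc ⟨_, ⟨isom h hs x0 y0, rfl⟩, ?_⟩
  have key : ∀ p ∈ isom h hs x0 y0 ''
      ({!₂[0, 0], !₂[(m : ℝ), 0], !₂[0, (n : ℝ)], !₂[(m : ℝ), (n : ℝ)]} : Set Plane),
      c p = !e := by
    rintro p ⟨v, hv, rfl⟩
    have h1 := hm (0, 0, 0, 0) (by simp [rect])
    have h2 := hm ((m : ℤ), 0, 0, 0) (by simp [rect])
    have h3 := hm (0, 0, 0, (n : ℤ)) (by simp [rect])
    have h4 := hm ((m : ℤ), 0, 0, (n : ℤ)) (by simp [rect])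
    rw [hf] at h1 h2 h3 h4
    have e1 : ex (0, 0, 0, 0) = 0 ∧ ey (0, 0, 0, 0) = 0 := by simp [ex, ey]
    have e2 : ex ((m : ℤ), 0, 0, 0) = m ∧ ey ((m : ℤ), 0, 0, 0) = 0 := by simp [ex, ey]
    have e3 : ex (0, 0, 0, (n : ℤ)) = 0 ∧ ey (0, 0, 0, (n : ℤ)) = n := by simp [ex, ey]
    have e4 : ex ((m : ℤ), 0, 0, (n : ℤ)) = m ∧ ey ((m : ℤ), 0, 0, (n : ℤ)) = n := by
      simp [ex, ey]
    rw [e1.1, e1.2] at h1
    rw [e2.1, e2.2] at h2
    rw [e3.1, e3.2] at h3
    rw [e4.1, e4.2] at h4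
    have hx : ∀ t : Bool, xor e t = true → t = !e := by
      intro t ht
      cases e <;> cases t <;> simp_all
    rcases hv with rfl | rfl | rfl | rfl
    · rw [isom_apply]; exact hx _ h1
    · rw [isom_apply]; exact hx _ h2
    · rw [isom_apply]; exact hx _ h3
    · rw [isom_apply]; exact hx _ h4
  intro p hp q hq
  rw [key p hp, key q hq]

/-- **`S(4)` holds**: every two-colouring of the plane contains a monochromatic `m × n` rectangle
with `m ∈ {1, 2}` and `n ∈ {1, 2, 3, 4}`. -/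
theorem result : S 4 := by
  intro c
  by_contra hcon
  push Not at hcon
  have hno : ∀ m n : ℕ, (m = 1 ∨ m = 2) → 1 ≤ n → n ≤ 4 → NoMono (Ind c) (rect m n) := by
    intro m n hm hn1 hn4
    refine noMono c m n ?_
    rintro ⟨R, hR, hR'⟩
    exact hcon m n hm hn1 hn4 R hR hR'
  refine no_closed (closed c) (fun S hS => ?_) (fun p => c (mv 0 0 1 0 1 (ex p) (ey p)))
    ⟨0, 0, 1, 0, 1, false, by norm_num, by norm_num, fun p => by simp⟩
  simp only [base, List.mem_cons, List.not_mem_nil, or_false] at hS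
  rcases hS with rfl | rfl | rfl | rfl | rfl | rfl | rfl
  · exact hno 1 1 (by norm_num) (by norm_num) (by norm_num)
  · exact hno 1 2 (by norm_num) (by norm_num) (by norm_num)
  · exact hno 1 3 (by norm_num) (by norm_num) (by norm_num)
  · exact hno 1 4 (by norm_num) (by norm_num) (by norm_num)
  · exact hno 2 2 (by norm_num) (by norm_num) (by norm_num)
  · exact hno 2 3 (by norm_num) (by norm_num) (by norm_num)
  · exact hno 2 4 (by norm_num) (by norm_num) (by norm_num)

end Pool.Agent.H36.Rect.SFour
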